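import Pool.Agent.N973.P21.DIAG
import Pool.Agent.N877.P21G.Defs2

/-!
# P21G: the diagonal identities for the even symbols
-/

set_option autoImplicit false

namespace Pool.Agent.N402.P21G

open Finset
open Pool.Agent.N969.P15 (V3 tw tb ep2 Ev un psp psp2 c2)
open Pool.Agent.N969.P17G (sgnE psl psl2 gen gnE chP chM)
open Pool.Agent.N969.RQ (Fd ud ip7 vec7 c7)
open Pool.Agent.N877.P21 (cc rr Cls0 Cls0e Cl7 Cl7e AA AAe Sp7 ip vec cp cp0 loc7 loc7E loc locE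
  S_CP7 S_CP7E S_HE S_HEE S_PC S_PCE S_HE7E)
open Pool.Agent.N877.P21G
open Pool.Agent.N973.P21 (bil_odd bil_even cc4 cc47 cast4 sum_dbl D_pos D_T odd_D loc_odd locE_odd
  tb_odd tb_neg n49)

theorem un1 : un 1 = {0} := by
  unfold un
  rfl

theorem chP1 (u : ℤ) : chP 1 u = 1 := by
  unfold chP
  simp

theorem WM_zero {A m S T : ℕ} (h : ¬ (3 ∣ T ∧ 7 ∣ S)) : WM A m S T = 0 := by
  unfold WM Wd
  by_cases h7 : 7 ∣ S
  · have h3 : ¬ 3 ∣ T := fun h3 => h ⟨h3, h7⟩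
    refine Finset.sum_eq_zero fun a _ => Finset.sum_eq_zero fun a' ha' => ?_
    rw [mem_filter] at ha'
    exact absurd (ha'.2.trans (Nat.dvd_of_mem_divisors ha'.1)) h3
  · refine Finset.sum_eq_zero fun a ha => ?_
    rw [mem_filter] at ha
    exact absurd (ha.2.trans (Nat.dvd_of_mem_divisors ha.1)) h7

theorem sum_WM (A m N : ℕ) : ∑ T ∈ range N, WM A m (N - T) T =
    ∑ T ∈ (range N).filter (fun T => 3 ∣ T ∧ 7 ∣ N - T), WM A m (N - T) T := by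
  rw [Finset.sum_filter]
  refine Finset.sum_congr rfl fun T _ => ?_
  split_ifs with h
  · rfl
  · exact WM_zero h

theorem cop21 {m : ℕ} (h3 : ¬ 3 ∣ m) (h7 : ¬ 7 ∣ m) : Nat.Coprime m 21 := by
  have h1 : Nat.Coprime m 3 := (Nat.coprime_comm.1 ((Nat.Prime.coprime_iff_not_dvd
    (by norm_num)).2 h3))
  have h2 : Nat.Coprime m 7 := (Nat.coprime_comm.1 ((Nat.Prime.coprime_iff_not_dvd
    (by norm_num)).2 h7))
  exact Nat.Coprime.mul_right h1 h2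

/-- C1D at `A = 1` -/
theorem d1 (hD : S_D1I) (hD2 : S_D1I2) {m : ℕ} (hF : Fn m) (hc : Nat.Coprime m 21) :
    EM m 0 1 = 2 * ∑ T ∈ range (1 * m), WM m 1 (1 * m - T) T ∧
    EM m 1 2 - EM m 0 1 = 2 * ∑ T ∈ range (2 * m), WM m 1 (2 * m - T) T -
      6 * ∑ T ∈ range (1 * m), WM m 1 (1 * m - T) T := by
  have h1 := hD 1 m (Or.inl rfl) hF (Nat.coprime_one_left m) (by rw [one_mul]; exact hc)
  rw [un1, Finset.sum_singleton, chP1, one_mul, Nat.cast_zero, Nat.cast_one] at h1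
  have h2 := hD2 m hF hc
  refine ⟨h1, ?_⟩
  linarith

theorem w1_odd (h2 : S_C2E) {m : ℕ} (hm : Cls0 m) :
    ∑ T ∈ range (1 * m), WM m 1 (1 * m - T) T = -AA m m := by
  obtain ⟨hs, h4, h3, h7⟩ := id hm
  rw [sum_WM]
  unfold AA
  simp only [one_mul]
  rw [← Finset.sum_neg_distrib]
  refine Finset.sum_congr rfl fun T hT => ?_
  rw [mem_filter, mem_range] at hT
  have hT0 : 0 < T := Nat.pos_of_ne_zero (by
    rintro rfl
    unfold Sp7 at h7
    omega)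
  have := h2 m (Or.inl hm) 1 (Or.inl rfl) T hT0 (by omega) hT.2.1 (by rw [one_mul]; exact hT.2.2)
  rw [one_mul, if_neg (by omega), if_neg (by omega), add_zero] at this
  exact this

theorem w2_odd (h2 : S_C2E) {m : ℕ} (hm : Cls0 m) :
    ∑ T ∈ range (2 * m), WM m 1 (2 * m - T) T = -(AA m (2 * m) + ep2 m * AA m m) := by
  obtain ⟨hs, h4, h3, h7⟩ := id hm
  rw [sum_WM]
  unfold AA
  rw [← sum_dbl (n := m) (fun N T => 3 ∣ T ∧ 7 ∣ N - T) (by intro T; constructor <;> omega)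
      (ep2 m) (loc7 m), ← Finset.sum_add_distrib, ← Finset.sum_neg_distrib]
  refine Finset.sum_congr rfl fun T hT => ?_
  rw [mem_filter, mem_range] at hT
  have hT0 : 0 < T := Nat.pos_of_ne_zero (by
    rintro rfl
    unfold Sp7 at h7
    omega)
  have := h2 m (Or.inl hm) 2 (Or.inr rfl) T hT0 hT.1 hT.2.1 hT.2.2
  rw [if_neg (by omega : ¬ 2 ∣ m)] at this
  rw [this]
  simp only [true_and]

theorem w_even (h2 : S_C2E) {m : ℕ} (hm : Cls0e m) {k : ℕ} (hk : k = 1 ∨ k = 2) :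
    ∑ T ∈ range (k * m), WM m 1 (k * m - T) T = -AAe m (k * m) := by
  obtain ⟨hev, h3, h7⟩ := id hm
  have h2m : 2 ∣ m := by
    obtain ⟨m', rfl, -⟩ := hev
    omega
  rw [sum_WM]
  unfold AAe
  rw [← Finset.sum_neg_distrib]
  refine Finset.sum_congr rfl fun T hT => ?_
  rw [mem_filter, mem_range] at hT
  have hT0 : 0 < T := Nat.pos_of_ne_zero (by
    rintro rfl
    unfold Sp7 at h7
    rcases hk with rfl | rfl <;> omega)
  rw [h2 m (Or.inr hm) k hk T hT0 hT.1 hT.2.1 hT.2.2, if_pos h2m]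
  have e : ((T : ℤ) - ((k * m - T : ℕ) : ℤ)) = 2 * T - (k * m : ℕ) := by
    rw [Nat.cast_sub hT.1.le]
    ring
  rw [e]

/-- **DE0** -/
theorem t_DE0 (hD : S_D1I) (hD2 : S_D1I2) (h2 : S_C2E) (hC : S_CP7) (hCE : S_CP7E) (hHE : S_HE)
    (hHEE : S_HEE) : S_DE0 := by
  intro m hm
  rcases hm with hm | hm
  · obtain ⟨hs, h4, h3, h7⟩ := id hm
    have h7' : ¬ 7 ∣ m := by
      unfold Sp7 at h7
      omega
    rw [(d1 hD hD2 (Or.inl ⟨hs, h4⟩) (cop21 (by omega) h7')).2, w1_odd h2 hm, w2_odd h2 hm]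
    obtain ⟨k1, k2⟩ := bil_odd hC hm
    have h0 := hHE m h4 h7
    have k5 := cc4 h7 h0
    rw [h0.1, k5] at k2
    generalize AA m m = S1 at k1 ⊢
    generalize AA m (2 * m) = S2 at k2 ⊢
    have k7 : 8 * (72 * (2 * -(S2 + ep2 m * S1) - 6 * -S1)) = 8 * cc m ^ 2 := by
      linear_combination 2 * (3 - ep2 m) * k1 - 2 * k2
    linarith
  · obtain ⟨hev, h3, h7⟩ := id hm
    have h7' : ¬ 7 ∣ m := by
      unfold Sp7 at h7
      omega
    rw [(d1 hD hD2 (Or.inr hev) (cop21 (by omega) h7')).2, w_even h2 hm (Or.inl rfl),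
      w_even h2 hm (Or.inr rfl), one_mul]
    obtain ⟨k1, k2⟩ := bil_even hCE hm
    obtain ⟨m', rfl, hs, hm'⟩ := id hev
    obtain ⟨e1, e2⟩ := hHEE m' hm' h7
    have k5 : cc (16 * m') = -cc (4 * m') := by
      have := cc4 (n := 4 * m') (e := 0) h7 (by
        rw [cast4, show 4 * (4 * (m' : ℤ)) = 16 * m' by ring, e1, e2]
        constructor <;> ring)
      rw [cast4, show 4 * (4 * (m' : ℤ)) = 16 * m' by ring] at this
      rw [this]
      ring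
    rw [cast4, show 4 * (4 * (m' : ℤ)) = 16 * m' by ring, e1, k5] at k2
    rw [cast4] at k1 ⊢
    generalize AAe (4 * m') (4 * m') = S1 at k1 ⊢
    generalize AAe (4 * m') (2 * (4 * m')) = S2 at k2 ⊢
    have k7 : 8 * (72 * (2 * -S2 - 6 * -S1)) = 8 * cc (4 * m') ^ 2 := by
      linear_combination 6 * k1 - 2 * k2
    linarith

/-! ### counting the pairs with inner product divisible by `7` -/

/-- the pairs of proportional vectors -/
theorem endc (f : V3 → V3 → ℤ) (S : ℤ → Finset V3) (hS : ∀ n v, v ∈ S n ↔ f v v = n)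
    (h1 : ∀ (v w : V3) (c : ℤ), f (w - c • v) (w - c • v) = f w w - 2 * c * f v w + c ^ 2 * f v v)
    (h2 : ∀ (v : V3) (c : ℤ), f v (c • v) = c * f v v)
    (h3 : ∀ (v : V3) (c : ℤ), f (c • v) (c • v) = c ^ 2 * f v v)
    (h4 : ∀ v, f v v = 0 → v = 0) {m n2 c b : ℤ} (hc : n2 = c ^ 2 * m) (hb : b = c * m) :
    ((S m ×ˢ S n2).filter fun q => f q.1 q.2 = b).card = (S m).card := by
  refine Finset.card_nbij' (fun q => q.1) (fun v => (v, c • v)) ?_ ?_ ?_ ?_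
  · intro q hq
    rw [mem_coe, mem_filter, mem_product] at hq
    exact hq.1.1
  · intro v hv
    rw [mem_coe] at hv
    rw [mem_coe, mem_filter, mem_product, hS, hS]
    have := (hS _ _).1 hv
    refine ⟨⟨this, ?_⟩, ?_⟩
    · change f (c • v) (c • v) = n2
      rw [h3, this, hc]
    · change f v (c • v) = b
      rw [h2, this, hb]
  · rintro ⟨v, w⟩ hq
    rw [mem_coe, mem_filter, mem_product, hS, hS] at hq
    obtain ⟨⟨a, b'⟩, e⟩ := hq
    change f v v = m at a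
    change f w w = n2 at b'
    change f v w = b at e
    have h5 := h1 v w c
    rw [a, b', e, hc, hb] at h5
    have h0 : f (w - c • v) (w - c • v) = 0 := by
      rw [h5]
      ring
    have h6 : w = c • v := sub_eq_zero.1 (h4 _ h0)
    change (v, c • v) = (v, w)
    rw [h6]
  · intro v _
    rfl

theorem sumb {N : ℕ} (h7 : 7 ∣ N) (hN : 0 < N) (g : ℤ → ℤ)
    (hg : ∀ b : ℤ, -(N : ℤ) < b → b < N → ¬ (2 : ℤ) ∣ N - b → g b = 0) :
    ∑ b ∈ (Ioo (-((N : ℤ) + 1)) ((N : ℤ) + 1)).filter (fun b : ℤ => (7 : ℤ) ∣ b), g b =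
    g N + g (-N) + ∑ T ∈ (range N).filter (fun T => 0 < T ∧ 7 ∣ T), g (2 * T - (N : ℤ)) := by
  have hset : (Ioo (-((N : ℤ) + 1)) ((N : ℤ) + 1)).filter (fun b : ℤ => (7 : ℤ) ∣ b) =
      insert (N : ℤ) (insert (-(N : ℤ)) ((Ioo (-(N : ℤ)) N).filter (fun b : ℤ => (7 : ℤ) ∣ b))) := by
    ext b
    rw [mem_insert, mem_insert, mem_filter, mem_filter, mem_Ioo, mem_Ioo]
    omega
  have hsum : ∑ b ∈ (Ioo (-(N : ℤ)) N).filter (fun b : ℤ => (7 : ℤ) ∣ b), g b =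
      ∑ T ∈ (range N).filter (fun T => 0 < T ∧ 7 ∣ T), g (2 * T - (N : ℤ)) := by
    rw [← Finset.sum_filter_add_sum_filter_not _ (fun b : ℤ => (2 : ℤ) ∣ N - b)]
    have h2 : ∑ b ∈ ((Ioo (-(N : ℤ)) N).filter (fun b : ℤ => (7 : ℤ) ∣ b)).filter
        (fun b : ℤ => ¬ (2 : ℤ) ∣ N - b), g b = 0 := by
      refine Finset.sum_eq_zero fun b hb => ?_
      rw [mem_filter, mem_filter, mem_Ioo] at hb
      exact hg b hb.1.1.1 hb.1.1.2 hb.2
    rw [h2, add_zero]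
    refine Finset.sum_bij' (fun b _ => (((N : ℤ) + b) / 2).toNat) (fun T _ => 2 * (T : ℤ) - N)
      ?_ ?_ ?_ ?_ ?_
    · intro b hb
      rw [mem_filter, mem_filter, mem_Ioo] at hb
      obtain ⟨⟨⟨b1, b2⟩, b3⟩, b4⟩ := hb
      rw [mem_filter, mem_range]
      omega
    · intro T hT
      rw [mem_filter, mem_range] at hT
      rw [mem_filter, mem_filter, mem_Ioo]
      omega
    · intro b hb
      rw [mem_filter, mem_filter, mem_Ioo] at hb
      omega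
    · intro T hT
      omega
    · intro b hb
      rw [mem_filter, mem_filter, mem_Ioo] at hb
      congr 1
      omega
  rw [hset, Finset.sum_insert, Finset.sum_insert, hsum, ← add_assoc]
  · rw [mem_filter, mem_Ioo]
    omega
  · rw [mem_insert, mem_filter, mem_Ioo]
    omega

theorem cnt (f : V3 → V3 → ℤ) (S : ℤ → Finset V3) (hS : ∀ n v, v ∈ S n ↔ f v v = n)
    (h1 : ∀ (v w : V3) (c : ℤ), f (w - c • v) (w - c • v) = f w w - 2 * c * f v w + c ^ 2 * f v v)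
    (h2 : ∀ (v : V3) (c : ℤ), f v (c • v) = c * f v v)
    (h3 : ∀ (v : V3) (c : ℤ), f (c • v) (c • v) = c ^ 2 * f v v)
    (h4 : ∀ v, f v v = 0 → v = 0) (h5 : ∀ v w, f v w ^ 2 ≤ f v v * f w w)
    {m k N n2 : ℕ} (hN0 : 0 < N) (hN : N = k * m) (hn2 : n2 = k ^ 2 * m) (h7 : 7 ∣ N)
    (hz : ∀ b : ℤ, -(N : ℤ) < b → b < N → ¬ (2 : ℤ) ∣ N - b →
      (((S m ×ˢ S n2).filter fun q => f q.1 q.2 = b).card : ℤ) = 0) :
    ∑ T ∈ (range N).filter (fun T => 0 < T ∧ 7 ∣ T),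
      (((S m ×ˢ S n2).filter fun q => f q.1 q.2 = 2 * (T : ℤ) - N).card : ℤ) =
    (((S m ×ˢ S n2).filter fun q => (7 : ℤ) ∣ f q.1 q.2).card : ℤ) - 2 * (S m).card := by
  have hNN : (N : ℤ) ^ 2 = m * n2 := by
    rw [hN, hn2]
    push_cast
    ring
  have e1 : ((S m ×ˢ S n2).filter fun q => f q.1 q.2 = (N : ℤ)).card = (S m).card :=
    endc f S hS h1 h2 h3 h4 (c := k) (by rw [hn2]; push_cast; ring) (by rw [hN]; push_cast; ring)
  have e2 : ((S m ×ˢ S n2).filter fun q => f q.1 q.2 = -(N : ℤ)).card = (S m).card :=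
    endc f S hS h1 h2 h3 h4 (c := -k) (by rw [hn2]; push_cast; ring) (by rw [hN]; push_cast; ring)
  have e3 := sumb h7 hN0 (fun b => (((S m ×ˢ S n2).filter fun q => f q.1 q.2 = b).card : ℤ)) hz
  have e4 : ∑ b ∈ (Ioo (-((N : ℤ) + 1)) ((N : ℤ) + 1)).filter (fun b : ℤ => (7 : ℤ) ∣ b),
      (((S m ×ˢ S n2).filter fun q => f q.1 q.2 = b).card : ℤ) =
      (((S m ×ˢ S n2).filter fun q => (7 : ℤ) ∣ f q.1 q.2).card : ℤ) := by
    rw [Finset.card_eq_sum_card_fiberwise (f := fun q : V3 × V3 => f q.1 q.2)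
      (t := (Ioo (-((N : ℤ) + 1)) ((N : ℤ) + 1)).filter (fun b : ℤ => (7 : ℤ) ∣ b))]
    · push_cast
      refine Finset.sum_congr rfl fun b hb => ?_
      congr 1
      rw [Finset.filter_filter]
      congr 1
      refine Finset.filter_congr fun q _ => ?_
      constructor
      · intro h
        refine ⟨?_, h⟩
        rw [h]
        exact (Finset.mem_filter.1 hb).2
      · exact fun h => h.2
    · intro q hq
      rw [Finset.mem_coe, Finset.mem_filter, Finset.mem_product, hS, hS] at hq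
      obtain ⟨⟨g1, g2⟩, g3⟩ := hq
      have g4 := h5 q.1 q.2
      rw [g1, g2, ← hNN] at g4
      have g6 := abs_le.1 (abs_le_of_sq_le_sq g4 (Int.natCast_nonneg N))
      rw [Finset.mem_coe, Finset.mem_filter, Finset.mem_Ioo]
      exact ⟨⟨by linarith [g6.2], by linarith [g6.1]⟩, g3⟩
  rw [e4] at e3
  simp only [e1, e2] at e3
  linarith

/-! ### the two lattices -/

theorem ip_exp (v w : V3) (c : ℤ) :
    ip (w - c • v) (w - c • v) = ip w w - 2 * c * ip v w + c ^ 2 * ip v v := by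
  simp only [ip, Pi.sub_apply, Pi.smul_apply, smul_eq_mul]
  ring

theorem ip_s1 (v : V3) (c : ℤ) : ip v (c • v) = c * ip v v := by
  simp only [ip, Pi.smul_apply, smul_eq_mul]
  ring

theorem ip_s2 (v : V3) (c : ℤ) : ip (c • v) (c • v) = c ^ 2 * ip v v := by
  simp only [ip, Pi.smul_apply, smul_eq_mul]
  ring

theorem ip_def (v : V3) (h : ip v v = 0) : v = 0 := by
  ext i
  have h1 := Pool.Agent.N218.P21.sq_le_ip v i
  rw [h] at h1
  exact pow_eq_zero_iff two_ne_zero |>.1 (le_antisymm h1 (sq_nonneg _))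

theorem ip7_exp (v w : V3) (c : ℤ) :
    ip7 (w - c • v) (w - c • v) = ip7 w w - 2 * c * ip7 v w + c ^ 2 * ip7 v v := by
  simp only [ip7, Pi.sub_apply, Pi.smul_apply, smul_eq_mul]
  ring

theorem ip7_s1 (v : V3) (c : ℤ) : ip7 v (c • v) = c * ip7 v v := by
  simp only [ip7, Pi.smul_apply, smul_eq_mul]
  ring

theorem ip7_s2 (v : V3) (c : ℤ) : ip7 (c • v) (c • v) = c ^ 2 * ip7 v v := by
  simp only [ip7, Pi.smul_apply, smul_eq_mul]
  ring

theorem sq_le_ip7 (v : V3) (i : Fin 3) : v i ^ 2 ≤ ip7 v v := by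
  unfold ip7
  fin_cases i
  · change v 0 ^ 2 ≤ _
    nlinarith [sq_nonneg (v 1 + v 2), sq_nonneg (v 1), sq_nonneg (v 0), sq_nonneg (v 2)]
  · change v 1 ^ 2 ≤ _
    nlinarith [sq_nonneg (v 1 + v 2), sq_nonneg (v 1), sq_nonneg (v 0), sq_nonneg (v 2)]
  · change v 2 ^ 2 ≤ _
    nlinarith [sq_nonneg (v 1 + v 2), sq_nonneg (v 1), sq_nonneg (v 0), sq_nonneg (v 2)]

theorem mem_vec7 (n : ℤ) (v : V3) : v ∈ vec7 n ↔ ip7 v v = n := by
  unfold vec7
  rw [Finset.mem_filter, Fintype.mem_piFinset]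
  constructor
  · exact fun h => h.2
  · intro h
    refine ⟨fun i => ?_, h⟩
    rw [Finset.mem_Icc]
    have h1 := sq_le_ip7 v i
    rw [h] at h1
    have h2 := Int.le_self_sq (v i)
    have h3 := Int.le_self_sq (-v i)
    constructor <;> nlinarith

theorem ip7_def (v : V3) (h : ip7 v v = 0) : v = 0 := by
  ext i
  have h1 := sq_le_ip7 v i
  rw [h] at h1
  exact pow_eq_zero_iff two_ne_zero |>.1 (le_antisymm h1 (sq_nonneg _))

theorem cs7 (v w : V3) : ip7 v w ^ 2 ≤ ip7 v v * ip7 w w := by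
  have key : ip7 v v * ip7 w w - ip7 v w ^ 2 =
      28 * (v 1 * w 2 - v 2 * w 1) ^ 2 + 56 * (v 2 * w 0 - v 0 * w 2) ^ 2 +
        28 * (v 0 * w 1 - v 1 * w 0) ^ 2 -
        28 * ((v 2 * w 0 - v 0 * w 2) * (v 0 * w 1 - v 1 * w 0)) := by
    unfold ip7
    ring
  have : 0 ≤ ip7 v v * ip7 w w - ip7 v w ^ 2 := by
    rw [key]
    nlinarith [sq_nonneg ((v 2 * w 0 - v 0 * w 2) - (v 0 * w 1 - v 1 * w 0)),
      sq_nonneg (v 1 * w 2 - v 2 * w 1), sq_nonneg (v 2 * w 0 - v 0 * w 2),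
      sq_nonneg (v 0 * w 1 - v 1 * w 0)]
  linarith

theorem dvd_lin7 {v : V3} (hv : (7 : ℤ) ∣ ip7 v v) : (7 : ℤ) ∣ 2 * v 1 + v 2 := by
  have h1 : (7 : ℤ) ∣ (2 * v 1 + v 2) ^ 2 := by
    have e : (2 * v 1 + v 2) ^ 2 = ip7 v v - 7 * (v 0 ^ 2 + v 2 ^ 2) := by
      unfold ip7
      ring
    rw [e]
    exact dvd_sub hv (dvd_mul_right _ _)
  exact Int.Prime.dvd_pow' (by norm_num) h1

theorem dvd_ip7 {v w : V3} (hv : (7 : ℤ) ∣ ip7 v v) : (7 : ℤ) ∣ ip7 v w := by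
  have e : ip7 v w = (2 * v 1 + v 2) * (2 * w 1 + w 2) + 7 * (v 0 * w 0 + v 2 * w 2) := by
    unfold ip7
    ring
  rw [e]
  exact dvd_add ((dvd_lin7 hv).mul_right _) (dvd_mul_right _ _)

theorem cpS {m k N n2 : ℕ} (hN0 : 0 < N) (hN : N = k * m) (hn2 : n2 = k ^ 2 * m) (h7 : 7 ∣ N)
    (hz : ∀ b : ℤ, -(N : ℤ) < b → b < N → ¬ (2 : ℤ) ∣ N - b → (cp m b n2 : ℤ) = 0) :
    ∑ T ∈ (range N).filter (fun T => 0 < T ∧ 7 ∣ T), (cp m (2 * (T : ℤ) - N) n2 : ℤ) =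
      (cp0 m n2 : ℤ) - 2 * rr m :=
  cnt ip vec (fun _ _ => Pool.Agent.N218.P21.mem_vec) ip_exp ip_s1 ip_s2 ip_def
    Pool.Agent.N218.P21.cs hN0 hN hn2 h7 hz

theorem c7S {m k N n2 : ℕ} (hN0 : 0 < N) (hN : N = k * m) (hn2 : n2 = k ^ 2 * m) (h7 : 7 ∣ N)
    (h7m : 7 ∣ m)
    (hz : ∀ b : ℤ, -(N : ℤ) < b → b < N → ¬ (2 : ℤ) ∣ N - b → (c7 m b n2 : ℤ) = 0) :
    ∑ T ∈ (range N).filter (fun T => 0 < T ∧ 7 ∣ T), (c7 m (2 * (T : ℤ) - N) n2 : ℤ) =
      ((vec7 m).card : ℤ) * (vec7 n2).card - 2 * (vec7 m).card := by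
  have h := cnt ip7 vec7 mem_vec7 ip7_exp ip7_s1 ip7_s2 ip7_def cs7 hN0 hN hn2 h7 hz
  have e : ((vec7 m ×ˢ vec7 n2).filter fun q => (7 : ℤ) ∣ ip7 q.1 q.2) = vec7 m ×ˢ vec7 n2 := by
    refine Finset.filter_true_of_mem fun q hq => ?_
    rw [mem_product, mem_vec7, mem_vec7] at hq
    exact dvd_ip7 (by rw [hq.1]; exact_mod_cast h7m)
  rw [e, Finset.card_product] at h
  push_cast at h
  exact h

theorem ev2 {m : ℕ} (h : Ev m) : 2 ∣ m := by
  obtain ⟨m', rfl, -⟩ := h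
  omega

theorem ev4 {m : ℕ} (h : Ev m) : 4 ∣ m := by
  obtain ⟨m', rfl, -⟩ := h
  omega

theorem K7_4 {m : ℕ} (hm : K7 m) (h : 2 ∣ m) : 4 ∣ m := by
  rcases hm with ⟨_, h4, _⟩ | ⟨hev, _⟩
  · omega
  · exact ev4 hev

theorem tw_odd (n D : ℕ) (h : ¬ 2 ∣ D) : tw n D = 0 := by
  unfold tw
  rw [Nat.factorization_eq_zero_of_not_dvd h]
  simp

theorem L7r_zero {m : ℕ} {b : ℤ} {D : ℕ} (h1 : ¬ 2 ∣ m → ¬ 2 ∣ D) (h2 : 2 ∣ m → ¬ (2 : ℤ) ∣ b) :
    L7r m b D = 0 := by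
  unfold L7r dt
  by_cases h : 2 ∣ m
  · rw [if_pos h, tb_odd (h2 h)]
    simp
  · rw [if_neg h, tw_odd _ _ (h1 h)]
    simp

section

variable (hPC : S_PC) (hPCE : S_PCE) (h7r : S_PC7r) (h7rE : S_PC7rE)

include hPC hPCE h7r h7rE

theorem dif_cp {m n2 : ℕ} (hm : K7 m) (h4 : 2 ∣ m → 4 ∣ n2) (b : ℤ) (D : ℕ) (hD0 : 0 < D)
    (hD : (D : ℤ) = m * n2 - b ^ 2) :
    12 * dif m b D = cp m b n2 - 6 * c7 m b n2 := by
  rcases hm with hm | hm
  · obtain ⟨hs, h4', h7, h3⟩ := hm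
    have h2 : ¬ 2 ∣ m := by omega
    unfold dif
    rw [if_neg h2, hPC m n2 b D hs h4' (by omega) hD0 hD, h7r m n2 b D hs h4' h7 hD0 hD]
    ring
  · obtain ⟨hev, h7, h3⟩ := hm
    have h2 : 2 ∣ m := ev2 hev
    unfold dif
    rw [if_pos h2, hPCE m n2 b D hev h3 (h4 h2) hD0 hD, h7rE m n2 b D hev h7 (h4 h2) hD0 hD]
    ring

theorem z_both {m k N n2 : ℕ} (hm : K7 m) (hN : N = k * m) (hn2 : n2 = k ^ 2 * m)
    (h4 : 2 ∣ m → 4 ∣ n2) (b : ℤ) (h1 : -(N : ℤ) < b) (h2 : b < N) (hb : ¬ (2 : ℤ) ∣ N - b) :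
    (cp m b n2 : ℤ) = 0 ∧ (c7 m b n2 : ℤ) = 0 := by
  have hNN : m * n2 = N ^ 2 := by
    rw [hN, hn2]
    ring
  obtain ⟨D, hD0, hD⟩ := D_pos hNN h1 h2
  have z1 : ¬ 2 ∣ D := odd_D hNN b D hb hD
  rcases hm with hm | hm
  · obtain ⟨hs, h4', h7, h3⟩ := hm
    have h2' : ¬ 2 ∣ m := by omega
    rw [hPC m n2 b D hs h4' (by omega) hD0 hD, h7r m n2 b D hs h4' h7 hD0 hD,
      loc_odd m D z1, L7r_zero (fun _ => z1) (fun h => absurd h h2')]
    simp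
  · obtain ⟨hev, h7, h3⟩ := hm
    have h2' : 2 ∣ m := ev2 hev
    have hb2 : ¬ (2 : ℤ) ∣ b := by
      have : (2 : ℤ) ∣ (N : ℤ) := by
        rw [hN]
        exact_mod_cast h2'.mul_left k
      omega
    rw [hPCE m n2 b D hev h3 (h4 h2') hD0 hD, h7rE m n2 b D hev h7 (h4 h2') hD0 hD,
      locE_odd m D hb2, L7r_zero (fun h => absurd h2' h) (fun _ => hb2)]
    simp

theorem dsum {m k N n2 : ℕ} (hm : K7 m) (hk : 0 < k) (hN : N = k * m) (hn2 : n2 = k ^ 2 * m) :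
    12 * ∑ T ∈ (range N).filter (fun T => 0 < T ∧ 7 ∣ T),
      dif m (2 * (T : ℤ) - N) (4 * (N - T) * T) =
      ((cp0 m n2 : ℤ) - 2 * rr m) - 6 * (((vec7 m).card : ℤ) * (vec7 n2).card -
        2 * (vec7 m).card) := by
  have h4 : 2 ∣ m → 4 ∣ n2 := by
    intro h
    rw [hn2]
    exact (K7_4 hm h).mul_left _
  have h7m : 7 ∣ m := by
    rcases hm with ⟨_, _, h, _⟩ | ⟨_, h, _⟩ <;> exact h
  have hm0 : 0 < m := by
    rcases hm with ⟨h, _⟩ | ⟨⟨m', rfl, h, _⟩, _⟩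
    · exact Nat.pos_of_ne_zero h.ne_zero
    · have := Nat.pos_of_ne_zero h.ne_zero
      omega
  have hN0 : 0 < N := by
    rw [hN]
    exact Nat.mul_pos hk hm0
  have h7N : 7 ∣ N := by
    rw [hN]
    exact h7m.mul_left _
  have hNN : m * n2 = N ^ 2 := by
    rw [hN, hn2]
    ring
  rw [← cpS hN0 hN hn2 h7N (fun b b1 b2 b3 =>
      (z_both hPC hPCE h7r h7rE hm hN hn2 h4 b b1 b2 b3).1),
    ← c7S hN0 hN hn2 h7N h7m (fun b b1 b2 b3 =>
      (z_both hPC hPCE h7r h7rE hm hN hn2 h4 b b1 b2 b3).2),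
    Finset.mul_sum, Finset.mul_sum, ← Finset.sum_sub_distrib]
  refine Finset.sum_congr rfl fun T hT => ?_
  rw [mem_filter, mem_range] at hT
  refine dif_cp hPC hPCE h7r h7rE hm h4 _ _ (Nat.mul_pos (by omega) hT.2.1) ?_
  rw [D_T hNN hT.1]
  ring

end

theorem WC_zero (m S : ℕ) : WC m 1 S 0 = 0 := by
  unfold WC Wd
  simp

theorem vk (h2 : S_C2E7) {m : ℕ} (hm : K7 m) {k : ℕ} (hk : k = 1 ∨ k = 2) :
    2 * ∑ T ∈ range (k * m), WC m 1 (k * m - T) T =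
    ∑ T ∈ (range (k * m)).filter (fun T => 0 < T ∧ 7 ∣ T),
      (dif m (2 * (T : ℤ) - (k * m : ℕ)) (4 * (k * m - T) * T) +
      (if k = 2 ∧ 2 ∣ T ∧ ¬ 2 ∣ m then ep2 m * dif m 0 ((k * m - T) * T) else 0)) := by
  rw [Finset.mul_sum, Finset.sum_filter]
  refine Finset.sum_congr rfl fun T hT => ?_
  rw [mem_range] at hT
  rcases Nat.eq_zero_or_pos T with rfl | hT0
  · rw [WC_zero, if_neg (by omega), mul_zero]
  · rw [h2 m hm k hk T hT0 hT]
    by_cases h7 : 7 ∣ T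
    · rw [if_pos h7]
      exact (if_pos ⟨hT0, h7⟩).symm
    · rw [if_neg h7]
      exact (if_neg (fun h => h7 h.2)).symm

/-- the sums over `T` -/
def SD (m N : ℕ) : ℤ := ∑ T ∈ (range N).filter (fun T => 0 < T ∧ 7 ∣ T),
  dif m (2 * (T : ℤ) - N) (4 * (N - T) * T)

theorem v1 (h2 : S_C2E7) {m : ℕ} (hm : K7 m) :
    2 * ∑ T ∈ range (1 * m), WC m 1 (1 * m - T) T = SD m m := by
  rw [vk h2 hm (Or.inl rfl)]
  unfold SD
  simp only [one_mul]
  refine Finset.sum_congr rfl fun T _ => ?_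
  rw [if_neg (by omega), add_zero]

theorem dif_b {m : ℕ} (h : ¬ 2 ∣ m) (b : ℤ) (D : ℕ) : dif m b D = dif m 0 D := by
  unfold dif L7r dt
  simp only [if_neg h]

theorem v2_odd (h2 : S_C2E7) {m : ℕ} (hm : K7 m) (h : ¬ 2 ∣ m) :
    2 * ∑ T ∈ range (2 * m), WC m 1 (2 * m - T) T = SD m (2 * m) + ep2 m * SD m m := by
  rw [vk h2 hm (Or.inr rfl), Finset.sum_add_distrib]
  unfold SD
  congr 1
  have e := sum_dbl (n := m) (fun _ T => 0 < T ∧ 7 ∣ T) (by intro T; constructor <;> omega)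
    (ep2 m) (dif m 0)
  have e' : ∑ T ∈ (range m).filter (fun T => 0 < T ∧ 7 ∣ T),
      dif m (2 * (T : ℤ) - m) (4 * (m - T) * T) =
      ∑ T ∈ (range m).filter (fun T => 0 < T ∧ 7 ∣ T), dif m 0 (4 * (m - T) * T) :=
    Finset.sum_congr rfl fun T _ => dif_b h _ _
  rw [e', ← e]
  refine Finset.sum_congr rfl fun T _ => ?_
  by_cases hT : 2 ∣ T
  · rw [if_pos ⟨rfl, hT, h⟩, if_pos hT]
  · rw [if_neg (fun h => hT h.2.1), if_neg hT]

theorem v2_even (h2 : S_C2E7) {m : ℕ} (hm : K7 m) (h : 2 ∣ m) :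
    2 * ∑ T ∈ range (2 * m), WC m 1 (2 * m - T) T = SD m (2 * m) := by
  rw [vk h2 hm (Or.inr rfl)]
  unfold SD
  refine Finset.sum_congr rfl fun T _ => ?_
  rw [if_neg (fun h' => h'.2.2 h), add_zero]

/-- **DE7** -/
theorem t_DE7 (hD : S_D121) (hD2 : S_D1212) (h2 : S_C2E7) (hCN : S_CN7)
    (hHE7 : Pool.Agent.N877.P21G.S_HE7) (h7r : S_PC7r) (h7rE : S_PC7rE) (hPC : S_PC)
    (hPCE : S_PCE) (hHE : Pool.Agent.N877.P21.S_HE7) (hHEE : S_HE7E) : S_DE7 := by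
  intro m hm
  have a1 := hD 1 m (Or.inl rfl) hm (Nat.coprime_one_left m)
  rw [un1, Finset.sum_singleton, chP1, one_mul, Nat.cast_zero, Nat.cast_one] at a1
  have a2 := hD2 m hm
  have a3 := hCN m hm
  have s1 := dsum hPC hPCE h7r h7rE (k := 1) (N := m) (n2 := m) hm (by norm_num) (by ring) (by ring)
  have s2 := dsum hPC hPCE h7r h7rE (k := 2) (N := 2 * m) (n2 := 4 * m) hm (by norm_num) (by ring)
    (by ring)
  have b1 := v1 h2 hm
  change 12 * SD m m = _ at s1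
  change 12 * SD m (2 * m) = _ at s2
  rcases id hm with hm' | hm'
  · obtain ⟨hs, h4, h7, h3⟩ := hm'
    have h2m : ¬ 2 ∣ m := by omega
    have b2 := v2_odd h2 hm h2m
    have h49 := n49 hs
    have r1 := Pool.Agent.N218.P21.s_REL77 m m h7 h49 h7 h49
    have r2 := Pool.Agent.N218.P21.s_REL77 m (4 * m) h7 h49 (by omega) (by omega)
    have h0 := hHE m h4 h7 h49
    have k5 := cc47 h7 h0
    have k6 := hHE7.1 m h4
    rw [cast4, h0.1, k5] at r2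
    rw [cast4, k6] at s2
    generalize ep2 m = e at *
    generalize ((vec7 m).card : ℤ) = c at *
    have a4 : 4 * (144 * (EB m 1 2 - EB m 0 1)) = 4 * -cc m ^ 2 := by
      linear_combination 576 * a2 - 1728 * a1 + 288 * b2 - 864 * b1 + 24 * s2 +
        24 * (e - 3) * s1 + r2 + (e - 3) * r1 - 48 * (e - 2) * a3
    linarith
  · obtain ⟨hev, h7, h3⟩ := hm'
    have b2 := v2_even h2 hm (ev2 hev)
    obtain ⟨m', rfl, hs, hm'⟩ := id hev
    have h7m : 7 ∣ m' := by omega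
    have h49m := n49 hs
    have h49 : ¬ 49 ∣ 4 * m' := by omega
    have r1 := Pool.Agent.N218.P21.s_REL77 (4 * m') (4 * m') h7 h49 h7 h49
    have r2 := Pool.Agent.N218.P21.s_REL77 (4 * m') (4 * (4 * m')) h7 h49 (by omega) (by omega)
    obtain ⟨e1, e2⟩ := hHEE m' hm' h7m h49m
    have k5 : cc (16 * m') = -cc (4 * m') := by
      have := cc47 (n := 4 * m') (e := 0) h7 (by
        rw [cast4, show 4 * (4 * (m' : ℤ)) = 16 * m' by ring, e1, e2]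
        constructor <;> ring)
      rw [cast4, show 4 * (4 * (m' : ℤ)) = 16 * m' by ring] at this
      rw [this]
      ring
    have k6 : ((vec7 (16 * m')).card : ℤ) = 3 * (vec7 (4 * m')).card := by
      exact_mod_cast hHE7.2 m' hm'
    rw [cast4 (4 * m'), cast4 m', show 4 * (4 * (m' : ℤ)) = 16 * m' by ring, e1, k5] at r2
    rw [cast4 (4 * m'), cast4 m', show 4 * (4 * (m' : ℤ)) = 16 * m' by ring, k6] at s2
    rw [cast4] at r1 s1 a3 ⊢
    generalize ((vec7 (4 * m')).card : ℤ) = c at *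
    have a4 : 4 * (144 * (EB (4 * m') 1 2 - EB (4 * m') 0 1)) = 4 * -cc (4 * m') ^ 2 := by
      linear_combination 576 * a2 - 1728 * a1 + 288 * b2 - 864 * b1 + 24 * s2 -
        72 * s1 + r2 - 3 * r1 + 96 * a3
    linarith

end Pool.Agent.N402.P21G
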