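import Pool.Agent.N402.P21G.DE

/-!
# P21G: the diagonal identity for the class `Kn`
-/

set_option autoImplicit false

namespace Pool.Agent.N402.P21G

open Finset
open Pool.Agent.N969.P15 (V3 tw tb ep2 Ev un psp psp2 c2 chE)
open Pool.Agent.N969.P17G (sgnE psl psl2 gen gnE chP chM)
open Pool.Agent.N969.RQ (Fd ud ip7 vec7 c7)
open Pool.Agent.N973.P15.C (jac_odd chE_odd)
open Pool.Agent.N877.P21 (WW WWe WX Fp)
open Pool.Agent.N877.P21G
open Pool.Agent.N973.P21 (cast4 sum_dbl)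

theorem WM1_odd {m S T : ℕ} (h : ¬ 2 ∣ m) : WM 1 m S T = WW m S T := by
  unfold WM Wd WW
  refine Finset.sum_congr rfl fun a _ => Finset.sum_congr rfl fun a' _ => ?_
  rw [Nat.primeFactors_one, Finset.prod_empty, one_mul]
  refine Finset.prod_congr rfl fun p hp => ?_
  rw [if_neg]
  rintro rfl
  exact h (Nat.dvd_of_mem_primeFactors hp)

theorem WM1_even {m S T : ℕ} (h : 2 ∣ m) (hm : m ≠ 0) : WM 1 m S T = WWe m S T := by
  unfold WM Wd WWe
  refine Finset.sum_congr rfl fun a _ => Finset.sum_congr rfl fun a' _ => ?_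
  rw [Nat.primeFactors_one, Finset.prod_empty, one_mul, one_mul,
    ← Finset.mul_prod_erase m.primeFactors _ (Nat.mem_primeFactors.2 ⟨Nat.prime_two, h, hm⟩),
    if_pos rfl]
  congr 1
  refine Finset.prod_congr rfl fun p hp => ?_
  rw [if_neg (Finset.ne_of_mem_erase hp)]

theorem jac_pr {P : Finset ℕ} (hP : ∀ p ∈ P, p.Prime) (x : ℤ) :
    jacobiSym x (∏ p ∈ P, p) = ∏ p ∈ P, jacobiSym x p := by
  classical
  induction P using Finset.induction_on with
  | empty => simp
  | insert p P hp ih =>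
    rw [Finset.prod_insert hp, jacobiSym.mul_right' _ (hP p (mem_insert_self _ _)).ne_zero
      (Finset.prod_pos fun q hq => (hP q (mem_insert_of_mem hq)).pos).ne', Finset.prod_insert hp,
      ih fun q hq => hP q (mem_insert_of_mem hq)]

theorem chM_odd {m : ℕ} (h : ¬ 2 ∣ m) (hs : Squarefree m) (u : ℤ) : chM m u = jacobiSym u m := by
  unfold chM
  rw [if_neg h, one_mul, Finset.erase_eq_of_notMem (fun h2 => h (Nat.dvd_of_mem_primeFactors h2)),
    ← jac_pr (fun p hp => Nat.prime_of_mem_primeFactors hp), Nat.prod_primeFactors_of_squarefree hs]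

theorem chM_even {m : ℕ} (h : 2 ∣ m) (u : ℤ) : chM m u = chE m u := by
  unfold chM chE
  rw [if_pos h]

/-- the sum over the cusps -/
theorem WX_M (h1 : Pool.Agent.N969.P15.S_C1B) (h1e : Pool.Agent.N969.P15.S_C1BE) {m N : ℕ} (hF : Fn m) (hN : N = m ∨ N = 2 * m) :
    WX (chM m) m N = ∑ T ∈ (range N).filter (fun T => 3 ∣ T ∧ 7 ∣ N - T), WM 1 m (N - T) T := by
  rcases hF with ⟨hs, h4⟩ | hev
  · have e : chM m = fun u => jacobiSym u m := by
      funext u
      exact chM_odd (by omega) hs u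
    rw [e, Pool.Agent.N973.P21.WX_odd h1 hs h4 hN]
    exact Finset.sum_congr rfl fun T _ => (WM1_odd (by omega)).symm
  · have e : chM m = chE m := by
      funext u
      exact chM_even (ev2 hev) u
    rw [e, Pool.Agent.N973.P21.WX_even h1e hev hN]
    have hm0 : m ≠ 0 := by
      obtain ⟨m', rfl, hs, -⟩ := hev
      have := hs.ne_zero
      omega
    exact Finset.sum_congr rfl fun T _ => (WM1_even (ev2 hev) hm0).symm

theorem chM_neg {m : ℕ} (hF : Fn m) (u : ℤ) : chM m (m - u) = -chM m u := by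
  rcases hF with ⟨hs, h4⟩ | hev
  · rw [chM_odd (by omega) hs, chM_odd (by omega) hs]
    exact jac_odd h4 u
  · rw [chM_even (ev2 hev), chM_even (ev2 hev)]
    exact chE_odd hev u

theorem sgn1 (k n : ℕ) (T : ℤ) : sgnE k 1 n T = 1 := by
  unfold sgnE
  simp

theorem X7_1 (n : ℕ) : X7 1 n = ((vec7 n).card : ℤ) * (vec7 n).card := by
  unfold X7
  simp only [sgn1, Finset.sum_const, nsmul_eq_mul, mul_one]

theorem N7_1 (n : ℕ) : N7 1 n = cn n * cn n := by
  unfold N7 cn
  rw [Finset.sum_mul_sum]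
  refine Finset.sum_congr rfl fun v _ => Finset.sum_congr rfl fun w _ => ?_
  rw [sgn1, mul_one]

theorem L37_b {m : ℕ} (h : ¬ 2 ∣ m) (b : ℤ) (D : ℕ) : L37 m b D = L37 m 0 D := by
  unfold L37 dt
  simp only [if_neg h]

/-- the sums over `T` -/
def S37 (m N : ℕ) : ℤ := ∑ T ∈ (range N).filter (fun T => 3 ∣ T ∧ 7 ∣ N - T),
  L37 m (2 * (T : ℤ) - N) (4 * (N - T) * T)

/-- **DIAGN** -/
theorem t_DIAGN (hA : Pool.Agent.N877.P21.S_C1A) (h1 : Pool.Agent.N969.P15.S_C1B) (h1e : Pool.Agent.N969.P15.S_C1BE) (h2 : S_C2N)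
    (h22 : S_C2N2) (hB : S_BILN) (hB2 : S_BILN2) (hHN : S_HEN)
    (hH7 : Pool.Agent.N877.P21G.S_HE7) : S_DIAGN := by
  intro m hm
  obtain ⟨hF, h3, h7⟩ := id hm
  have h7' : ¬ 7 ∣ m := by
    unfold I7 at h7
    omega
  have hP : PrN 1 m := ⟨Or.inl rfl, hm, Nat.coprime_one_left m⟩
  have h0 : ∀ k T : ℕ, (k = 1 ∨ k = 2) → 7 ∣ k * m - T → 0 < T := by
    intro k T hk h
    rcases Nat.eq_zero_or_pos T with rfl | h'
    · rcases hk with rfl | rfl <;> omega
    · exact h'
  -- determinant `m`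
  have w1 : WX (chM m) m m = S37 m m := by
    rw [WX_M h1 h1e hF (Or.inl rfl)]
    unfold S37
    refine Finset.sum_congr rfl fun T hT => ?_
    rw [mem_filter, mem_range] at hT
    have e := h2 1 m hP T (h0 1 T (Or.inl rfl) (by rw [one_mul]; exact hT.2.2))
      (by rw [one_mul]; exact hT.1) hT.2.1 (by rw [one_mul]; exact hT.2.2)
    simp only [one_mul, sgn1] at e
    exact e
  have b1 := hB 1 m hP
  simp only [one_mul, sgn1, X7_1, N7_1] at b1
  change 32 * S37 m m = _ at b1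
  have b2 := hB2 m hm
  have b2' : 32 * S37 m (2 * m) =
      ((vec7 (4 * (m : ℤ))).card : ℤ) * (vec7 m).card + cn (4 * m) * cn m := b2
  -- determinant `2 m`
  have w2 : WX (chM m) m (2 * m) = S37 m (2 * m) + (if 2 ∣ m then 0 else ep2 m * S37 m m) := by
    rw [WX_M h1 h1e hF (Or.inr rfl)]
    have e1 : ∑ T ∈ (range (2 * m)).filter (fun T => 3 ∣ T ∧ 7 ∣ 2 * m - T), WM 1 m (2 * m - T) T =
        ∑ T ∈ (range (2 * m)).filter (fun T => 3 ∣ T ∧ 7 ∣ 2 * m - T),
          (L37 m (2 * (T : ℤ) - (2 * m : ℕ)) (4 * (2 * m - T) * T) +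
            if 2 ∣ T ∧ ¬ 2 ∣ m then ep2 m * L37 m 0 ((2 * m - T) * T) else 0) := by
      refine Finset.sum_congr rfl fun T hT => ?_
      rw [mem_filter, mem_range] at hT
      exact h22 m hm T (h0 2 T (Or.inr rfl) hT.2.2) hT.1 hT.2.1 hT.2.2
    rw [e1, Finset.sum_add_distrib]
    unfold S37
    congr 1
    by_cases h : 2 ∣ m
    · rw [if_pos h]
      exact Finset.sum_eq_zero fun T _ => if_neg (fun h' => h'.2 h)
    · rw [if_neg h]
      have e := sum_dbl (n := m) (fun N T => 3 ∣ T ∧ 7 ∣ N - T) (by intro T; constructor <;> omega)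
        (ep2 m) (L37 m 0)
      have e' : ∑ T ∈ (range m).filter (fun T => 3 ∣ T ∧ 7 ∣ m - T),
          L37 m (2 * (T : ℤ) - m) (4 * (m - T) * T) =
          ∑ T ∈ (range m).filter (fun T => 3 ∣ T ∧ 7 ∣ m - T), L37 m 0 (4 * (m - T) * T) :=
        Finset.sum_congr rfl fun T _ => L37_b h _ _
      rw [e', ← e]
      refine Finset.sum_congr rfl fun T _ => ?_
      by_cases hT : 2 ∣ T
      · rw [if_pos ⟨hT, h⟩, if_pos hT]
      · rw [if_neg (fun h => hT h.1), if_neg hT]
  rw [hA m (by omega) (cop21 (by omega) h7') (chM m) (chM_neg hF), w1, w2]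
  rcases id hF with ⟨hs, h4⟩ | hev
  · have k1 := hH7.1 m h4
    have k2 := hHN.1 m h4 h3 h7'
    rw [k1, k2] at b2'
    rw [if_neg (by omega)]
    generalize S37 m m = s1 at *
    generalize S37 m (2 * m) = s2 at *
    generalize ((vec7 m).card : ℤ) = c at *
    have a : 4 * (4 * (2 * (s2 + ep2 m * s1 - 3 * s1))) = 4 * cn m ^ 2 := by
      linear_combination b2' + (ep2 m - 3) * b1
    linarith
  · rw [if_pos (ev2 hev)]
    obtain ⟨m', rfl, hs, hm'⟩ := id hev
    have k1 : ((vec7 (16 * m')).card : ℤ) = 3 * (vec7 (4 * m')).card := by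
      exact_mod_cast hH7.2 m' hm'
    have k2 := hHN.2 m' hm' (by omega) (by omega)
    rw [cast4, show 4 * (4 * (m' : ℤ)) = 16 * m' by ring, k1, k2] at b2'
    rw [cast4] at b1 ⊢
    generalize S37 (4 * m') (4 * m') = s1 at *
    generalize S37 (4 * m') (2 * (4 * m')) = s2 at *
    generalize ((vec7 (4 * m')).card : ℤ) = c at *
    have a : 4 * (4 * (2 * (s2 + 0 - 3 * s1))) = 4 * cn (4 * m') ^ 2 := by
      linear_combination b2' - 3 * b1
    linarith

end Pool.Agent.N402.P21G
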